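import Pool.Agent.Helper6.LPB.St

/-!
# Project LPB (MP_5e9b96_nt), module AVS: the mean value of the density by the sieve in both variables
-/

set_option autoImplicit false

namespace Pool.Agent.Helper39.LPB

open Finset
open Pool.Agent.Helper18.TR (StFL)
open Pool.Agent.Helper15.AB (StMT)
open Pool.Agent.Helper98.LM (QQ)
open Pool.Agent.Helper6.LP
open Pool.Agent.Helper6.LPB

private theorem memQ {w l : ℕ} (h : l ∈ QQ 32 w) : l.Prime ∧ 32 < l ∧ l ≤ w := by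
  unfold QQ at h
  rw [mem_filter, mem_Ioc] at h
  exact ⟨h.2, h.1.1, h.1.2⟩

private theorem gle (hN : StNLB) {z l : ℕ} (hl : l ∈ QQ 32 z) :
    0 ≤ (NN l : ℝ) / (l : ℝ) ^ 2 ∧ (NN l : ℝ) / (l : ℝ) ^ 2 ≤ 3 / l ∧
      (NN l : ℝ) / (l : ℝ) ^ 2 ≤ 1 / 2 := by
  obtain ⟨q1, q2, q3⟩ := memQ hl
  have h5 := (hN l q1 q2).2
  have hl0 : (32 : ℝ) < l := by exact_mod_cast q2
  have h1 : (NN l : ℝ) / (l : ℝ) ^ 2 ≤ 3 / l := by
    rw [div_le_div_iff₀ (by positivity) (by linarith)]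
    nlinarith
  have h2 : (3 : ℝ) / l ≤ 1 / 2 := by
    rw [div_le_div_iff₀ (by linarith) (by norm_num)]
    linarith
  exact ⟨by positivity, h1, h1.trans h2⟩

private theorem prodBound (hN : StNLB) (hM : StMT) : ∃ C : ℝ, 0 < C ∧ ∀ z : ℕ, 3 ≤ z →
    ∏ l ∈ QQ 32 z, (1 - (NN l : ℝ) / (l : ℝ) ^ 2) ≤ C / Real.log z ^ 2 := by
  obtain ⟨c, hc0, hc⟩ := hM
  refine ⟨Real.exp (2 * c + 65), Real.exp_pos _, ?_⟩
  intro z hz
  have hz3 : (3 : ℝ) ≤ z := by exact_mod_cast hz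
  have hlz : 0 < Real.log z := Real.log_pos (by linarith)
  have h1 := hc z hz3
  rw [Nat.floor_natCast] at h1
  have h2 : ∑ l ∈ (Icc 1 z).filter Nat.Prime, (1 : ℝ) / l ≤ 32 + ∑ l ∈ QQ 32 z, (1 : ℝ) / l := by
    have a1 : ∑ l ∈ (Icc 1 z).filter Nat.Prime, (1 : ℝ) / l ≤
        ∑ l ∈ Icc (1 : ℕ) 32 ∪ QQ 32 z, (1 : ℝ) / l := by
      apply sum_le_sum_of_subset_of_nonneg
      · intro l hl
        rw [mem_filter, mem_Icc] at hl
        rw [mem_union, mem_Icc]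
        by_cases h : l ≤ 32
        · exact Or.inl ⟨hl.1.1, h⟩
        · right
          unfold QQ
          rw [mem_filter, mem_Ioc]
          exact ⟨⟨by omega, hl.1.2⟩, hl.2⟩
      · intro l _ _
        positivity
    have a2 := sum_union_inter (s₁ := Icc (1 : ℕ) 32) (s₂ := QQ 32 z)
      (f := fun l : ℕ => (1 : ℝ) / l)
    have a3 : ∀ U : Finset ℕ, 0 ≤ ∑ l ∈ U, (1 : ℝ) / (l : ℝ) := fun U =>
      sum_nonneg fun l _ => div_nonneg zero_le_one (Nat.cast_nonneg l)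
    have a3 := a3 (Icc (1 : ℕ) 32 ∩ QQ 32 z)
    have a4 : ∑ l ∈ Icc (1 : ℕ) 32, (1 : ℝ) / (l : ℝ) ≤ ∑ l ∈ Icc (1 : ℕ) 32, (1 : ℝ) := by
      apply sum_le_sum
      intro l hl
      rw [mem_Icc] at hl
      have : (1 : ℝ) ≤ l := by exact_mod_cast hl.1
      rw [div_le_one (by linarith)]
      exact this
    have a5 : ∑ l ∈ Icc (1 : ℕ) 32, (1 : ℝ) = 32 := by
      rw [sum_const, Nat.card_Icc]
      norm_num
    linarith
  have h3 : ∑ l ∈ QQ 32 z, 20 / (l : ℝ) ^ 2 ≤ 1 := by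
    by_cases h : 32 ≤ z
    · have h4 := sum_Ioc_inv_sq_le_sub (α := ℝ) (k := 32) (n := z) (by norm_num) h
      have h5 : 0 ≤ (z : ℝ)⁻¹ := by positivity
      calc ∑ l ∈ QQ 32 z, 20 / (l : ℝ) ^ 2 ≤ ∑ l ∈ Ioc 32 z, 20 / (l : ℝ) ^ 2 :=
            sum_le_sum_of_subset_of_nonneg (filter_subset _ _) (fun _ _ _ => by positivity)
        _ = 20 * ∑ l ∈ Ioc 32 z, ((l : ℝ) ^ 2)⁻¹ := by
            rw [mul_sum]
            exact sum_congr rfl fun l _ => by rw [div_eq_mul_inv]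
        _ ≤ 20 * (((32 : ℕ) : ℝ)⁻¹ - (z : ℝ)⁻¹) := mul_le_mul_of_nonneg_left h4 (by norm_num)
        _ ≤ 1 := by
            push_cast
            norm_num
            linarith
    · have : QQ 32 z = ∅ := by
        unfold QQ
        rw [Ioc_eq_empty (by omega)]
        rfl
      rw [this, sum_empty]
      norm_num
  have hll : Real.exp (2 * Real.log (Real.log z)) = Real.log z ^ 2 := by
    rw [two_mul, Real.exp_add, Real.exp_log hlz, sq]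
  calc ∏ l ∈ QQ 32 z, (1 - (NN l : ℝ) / (l : ℝ) ^ 2)
      ≤ ∏ l ∈ QQ 32 z, Real.exp (-(2 * (1 / (l : ℝ)) - 20 / (l : ℝ) ^ 2)) := by
        apply prod_le_prod
        · intro l hl
          have := (gle hN hl).2.2
          linarith
        · intro l hl
          obtain ⟨q1, q2, q3⟩ := memQ hl
          have h5 := (hN l q1 q2).1
          have hl0 : (32 : ℝ) < l := by exact_mod_cast q2
          have h6 : 2 * (1 / (l : ℝ)) - 20 / (l : ℝ) ^ 2 ≤ (NN l : ℝ) / (l : ℝ) ^ 2 := by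
            have e : 2 * (1 / (l : ℝ)) - 20 / (l : ℝ) ^ 2 = (2 * l - 20) / (l : ℝ) ^ 2 := by
              have : (l : ℝ) ≠ 0 := by linarith
              field_simp
            rw [e]
            gcongr
          have h7 := Real.add_one_le_exp (-(2 * (1 / (l : ℝ)) - 20 / (l : ℝ) ^ 2))
          linarith
    _ = Real.exp (-(2 * ∑ l ∈ QQ 32 z, 1 / (l : ℝ) - ∑ l ∈ QQ 32 z, 20 / (l : ℝ) ^ 2)) := by
        rw [← Real.exp_sum]
        congr 1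
        rw [sum_neg_distrib, sum_sub_distrib, mul_sum]
    _ ≤ Real.exp ((2 * c + 65) - 2 * Real.log (Real.log z)) := by
        apply Real.exp_le_exp.2
        have := (abs_le.1 h1).1
        linarith
    _ = _ := by
        rw [Real.exp_sub, hll]

theorem hAVS (hF : StFL) (hO : StONE) (hN : StNLB) (hC : StCTT) (hM : StMT) : StAVS := by
  classical
  obtain ⟨C0, hC0, hprod⟩ := prodBound hN hM
  obtain ⟨B1, hB1⟩ := hF 3 1 (by norm_num) (by norm_num)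
  obtain ⟨B2, hB2⟩ := hO (1 / 2) (by norm_num)
  refine ⟨4 * C0 + 8, by linarith, 3 * B1 + B2 + 2, by omega, ?_⟩
  intro z K hz hK
  have hz1 : 1 ≤ z := by omega
  have hz3 : (3 : ℝ) ≤ z := by exact_mod_cast hz
  have hz0 : (1 : ℝ) ≤ z := by linarith
  have hlz : 0 < Real.log z := Real.log_pos (by linarith)
  have hK1 : 1 ≤ K := le_trans (Nat.one_le_pow _ _ (by omega)) hK
  have hKr : (1 : ℝ) ≤ K := by exact_mod_cast hK1
  have hKz : (z : ℝ) ^ (3 * B1 + B2 + 2) ≤ K := by exact_mod_cast hK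
  have hfl := hB1 z (by omega) (QQ 32 z) (fun l hl => ⟨(memQ hl).1, (memQ hl).2.2⟩)
    (fun l => (NN l : ℝ) / (l : ℝ) ^ 2) (fun l hl => gle hN hl) (ℕ × ℕ)
    ((Icc 1 K) ×ˢ (Icc 1 K)) (fun l x => (l : ℤ) ∣ ff x.1 x.2) ((K : ℝ) ^ 2)
    (3 * K * ((z : ℝ) ^ B1) ^ 2) (by positivity) (by positivity) ?_
  swap
  · intro T hT hTB
    have h1 := hC K T hK1 (fun l hl => (memQ (hT hl)).1)
    have h2 : (∏ l ∈ T, (l : ℝ)) ≤ (z : ℝ) ^ B1 := by
      have : ((∏ l ∈ T, l : ℕ) : ℝ) ≤ ((z ^ B1 : ℕ) : ℝ) := by exact_mod_cast hTB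
      push_cast at this
      exact this
    have h3 : 0 ≤ ∏ l ∈ T, (l : ℝ) := prod_nonneg fun _ _ => Nat.cast_nonneg _
    have h4 : 3 * (K : ℝ) * (∏ l ∈ T, (l : ℝ)) ^ 2 ≤ 3 * K * ((z : ℝ) ^ B1) ^ 2 := by
      apply mul_le_mul_of_nonneg_left _ (by positivity)
      exact pow_le_pow_left₀ h3 h2 2
    refine le_trans (le_of_eq ?_) (h1.trans h4)
    congr 3
  have hup : ((((Icc 1 K) ×ˢ (Icc 1 K)).filter
      (fun x : ℕ × ℕ => ∀ l ∈ QQ 32 z, ¬ (l : ℤ) ∣ ff x.1 x.2)).card : ℝ) ≤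
      2 * ((K : ℝ) ^ 2 * (C0 / Real.log z ^ 2)) + 3 * K * (z : ℝ) ^ (3 * B1) := by
    have h1 := (abs_le.1 hfl).2
    have h2 := mul_le_mul_of_nonneg_left (hprod z hz) (show (0 : ℝ) ≤ (K : ℝ) ^ 2 by positivity)
    have e : (z : ℝ) ^ B1 * (3 * K * ((z : ℝ) ^ B1) ^ 2) = 3 * K * (z : ℝ) ^ (3 * B1) := by
      rw [show 3 * B1 = B1 + (B1 + B1) by ring, pow_add, pow_add]
      ring
    rw [e] at h1
    linarith
  have hcard : ((((Icc 1 K) ×ˢ (Icc 1 K)).filter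
      (fun x : ℕ × ℕ => ∀ l ∈ QQ 32 z, ¬ (l : ℤ) ∣ ff x.1 x.2)).card : ℝ) =
      ∑ y ∈ Icc 1 K, (((Icc 1 K).filter
        (fun m : ℕ => ∀ l ∈ QQ 32 z, ¬ (l : ℤ) ∣ ff m y)).card : ℝ) := by
    rw [card_filter, sum_product_right]
    push_cast
    refine sum_congr rfl fun y _ => ?_
    rw [card_filter]
    push_cast
    rfl
  have hone : ∀ y ∈ Icc 5 K, 1 / 2 * (K * VV 32 z 1 0 y) - (z : ℝ) ^ B2 ≤ (((Icc 1 K).filter
        (fun m : ℕ => ∀ l ∈ QQ 32 z, ¬ (l : ℤ) ∣ ff m y)).card : ℝ) := by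
    intro y hy
    rw [mem_Icc] at hy
    have h1 := hB2 32 1 0 y z K (by norm_num)
      (fun l hl hd => by
        have := Nat.le_of_dvd one_pos hd
        omega) (by omega) (by omega)
    have h2 := (abs_le.1 h1).1
    have e : (Icc 1 K).filter (fun m : ℕ => Sf 32 z (((0 : ℕ) : ℤ) + (1 : ℕ) * m) y) =
        (Icc 1 K).filter (fun m : ℕ => ∀ l ∈ QQ 32 z, ¬ (l : ℤ) ∣ ff m y) := by
      apply filter_congr
      intro m _
      unfold Sf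
      simp
    rw [e] at h2
    linarith
  have hVn : (Icc 5 K) ⊆ (Icc 1 K) := Icc_subset_Icc (by norm_num) le_rfl
  have hsum : ∑ y ∈ Icc 5 K, (1 / 2 * (K * VV 32 z 1 0 y) - (z : ℝ) ^ B2) ≤
      ((((Icc 1 K) ×ˢ (Icc 1 K)).filter
      (fun x : ℕ × ℕ => ∀ l ∈ QQ 32 z, ¬ (l : ℤ) ∣ ff x.1 x.2)).card : ℝ) := by
    rw [hcard]
    exact (sum_le_sum hone).trans
      (sum_le_sum_of_subset_of_nonneg hVn (fun _ _ _ => Nat.cast_nonneg _))
  have e1 : ∑ y ∈ Icc 5 K, (1 / 2 * (K * VV 32 z 1 0 y) - (z : ℝ) ^ B2) =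
      1 / 2 * K * ∑ y ∈ Icc 5 K, VV 32 z 1 0 y - ((Icc 5 K).card : ℝ) * (z : ℝ) ^ B2 := by
    rw [sum_sub_distrib, sum_const, nsmul_eq_mul, mul_sum]
    congr 1
    exact sum_congr rfl fun _ _ => by ring
  have hcK : ((Icc 5 K).card : ℝ) ≤ K := by
    have : (Icc 5 K).card ≤ K := by
      rw [Nat.card_Icc]
      omega
    exact_mod_cast this
  have hzB2 : 0 ≤ (z : ℝ) ^ B2 := by positivity
  have hcK2 : ((Icc 5 K).card : ℝ) * (z : ℝ) ^ B2 ≤ K * (z : ℝ) ^ B2 :=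
    mul_le_mul_of_nonneg_right hcK hzB2
  rw [e1] at hsum
  have hlogz : Real.log z ≤ z := (Real.log_le_sub_one_of_pos (by linarith)).trans (by linarith)
  have hlog2 : Real.log z ^ 2 ≤ (z : ℝ) ^ 2 := pow_le_pow_left₀ hlz.le hlogz 2
  have t1 : (z : ℝ) ^ (3 * B1) ≤ K / Real.log z ^ 2 := by
    rw [le_div_iff₀ (by positivity)]
    calc (z : ℝ) ^ (3 * B1) * Real.log z ^ 2 ≤ (z : ℝ) ^ (3 * B1) * (z : ℝ) ^ 2 :=
          mul_le_mul_of_nonneg_left hlog2 (by positivity)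
      _ = (z : ℝ) ^ (3 * B1 + 2) := by rw [pow_add]
      _ ≤ (z : ℝ) ^ (3 * B1 + B2 + 2) := pow_le_pow_right₀ hz0 (by omega)
      _ ≤ K := hKz
  have t2 : (z : ℝ) ^ B2 ≤ K / Real.log z ^ 2 := by
    rw [le_div_iff₀ (by positivity)]
    calc (z : ℝ) ^ B2 * Real.log z ^ 2 ≤ (z : ℝ) ^ B2 * (z : ℝ) ^ 2 :=
          mul_le_mul_of_nonneg_left hlog2 (by positivity)
      _ = (z : ℝ) ^ (B2 + 2) := by rw [pow_add]
      _ ≤ (z : ℝ) ^ (3 * B1 + B2 + 2) := pow_le_pow_right₀ hz0 (by omega)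
      _ ≤ K := hKz
  obtain ⟨X, hX⟩ : ∃ X : ℝ, X = K / Real.log z ^ 2 := ⟨_, rfl⟩
  obtain ⟨S, hS⟩ : ∃ S : ℝ, S = ∑ y ∈ Icc 5 K, VV 32 z 1 0 y := ⟨_, rfl⟩
  rw [← hX] at t1 t2 ⊢
  rw [← hS] at hsum ⊢
  have e2 : (K : ℝ) ^ 2 * (C0 / Real.log z ^ 2) = K * (C0 * X) := by
    rw [hX]
    ring
  rw [e2] at hup
  have hfin : (K : ℝ) * (1 / 2 * S) ≤ K * (2 * (C0 * X) + 3 * X + X) := by
    have s1 : (K : ℝ) * (z : ℝ) ^ (3 * B1) ≤ K * X := mul_le_mul_of_nonneg_left t1 (by linarith)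
    have s2 : (K : ℝ) * (z : ℝ) ^ B2 ≤ K * X := mul_le_mul_of_nonneg_left t2 (by linarith)
    nlinarith
  have := le_of_mul_le_mul_left hfin (by linarith)
  linarith

end Pool.Agent.Helper39.LPB

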